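import Pool.Agent.V8H85.Fam.Form

set_option autoImplicit false

/-! A family of forms of rank four over the integral group ring: which of them are induced, and
the lagrangians. -/

namespace Pool.Agent.V8H85.Fam

open MonoidAlgebra Pool.Agent.V8H85.RF Pool.Agent.V8H85.RF.HermForm

variable {Γ : Type*} [Group Γ]

theorem two_cancel {a b : MonoidAlgebra ℤ Γ} (h : 2 * a = 2 * b) : a = b := by
  apply MonoidAlgebra.ext
  ext g
  have := congrArg (fun w => w.coeff g) h
  simp only [coeff_two_mul] at this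
  omega

section iso

variable {x x' y : MonoidAlgebra ℤ Γ}

/-- the base change -/
noncomputable def shear (y : MonoidAlgebra ℤ Γ) :
    (Fin 4 → MonoidAlgebra ℤ Γ) →ₗ[MonoidAlgebra ℤ Γ] (Fin 4 → MonoidAlgebra ℤ Γ) where
  toFun u := ![u 0, u 1, u 2 + (u 0 + u 1) * y, u 3 + (u 0 + u 1) * y]
  map_add' u v := by
    ext1 i
    fin_cases i <;> simp <;> first | noncomm_ring | abel
  map_smul' a u := by
    ext1 i
    fin_cases i <;> simp <;> first | noncomm_ring | abel

/-- the base change as an equivalence -/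
noncomputable def shearEquiv (y : MonoidAlgebra ℤ Γ) :
    (Fin 4 → MonoidAlgebra ℤ Γ) ≃ₗ[MonoidAlgebra ℤ Γ] (Fin 4 → MonoidAlgebra ℤ Γ) :=
  LinearEquiv.ofLinearMap (shear y) (shear (-y))
    (by
      ext1 i
      ext1
      ext1 j
      fin_cases j <;> simp [shear])
    (by
      ext1 i
      ext1
      ext1 j
      fin_cases j <;> simp [shear])

theorem isometric_of_congr {h h' : HermForm Γ (Fin 4 → MonoidAlgebra ℤ Γ)}
    (hh : HasGram h (Lam x)) (hh' : HasGram h' (Lam x')) (hxy : x = x' + 2 * y) :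
    Isometric h h' := by
  have hx := bar_of_gram hh
  have hx' := bar_of_gram hh'
  have hy : bar y = y := by
    apply two_cancel
    have h1 : 2 * bar y = bar (2 * y) := by
      rw [two_mul, two_mul, bar_add]
    have h2 : 2 * y = x - x' := by rw [hxy]; noncomm_ring
    rw [h1, h2, bar_sub, hx, hx']
  refine ⟨shearEquiv y, fun u v => ?_⟩
  change h'.val ![u 0, u 1, u 2 + (u 0 + u 1) * y, u 3 + (u 0 + u 1) * y]
    ![v 0, v 1, v 2 + (v 0 + v 1) * y, v 3 + (v 0 + v 1) * y] = _
  rw [val_Lam hh', val_Lam hh]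
  simp only [Matrix.cons_val_zero, Matrix.cons_val_one, Matrix.cons_val, bar_add, bar_mul, hy]
  rw [hxy]
  generalize bar (v 0) = a
  generalize bar (v 1) = b
  generalize bar (v 2) = c
  generalize bar (v 3) = d
  noncomm_ring

theorem Extended.of_isometric {P P' : Type*} [AddCommGroup P] [Module (MonoidAlgebra ℤ Γ) P]
    [AddCommGroup P'] [Module (MonoidAlgebra ℤ Γ) P'] {h : HermForm Γ P} {h' : HermForm Γ P'}
    (hi : Isometric h h') (hE : h'.Extended) : h.Extended := by
  obtain ⟨e, he⟩ := hi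
  obtain ⟨k, b, Q, hQ⟩ := hE
  refine ⟨k, b.map e.symm, Q, fun i j => ?_⟩
  rw [← he, Module.Basis.map_apply, Module.Basis.map_apply, e.apply_symm_apply, e.apply_symm_apply]
  exact hQ i j

/-- If all coefficients of `x` away from the identity are even, the form is induced. -/
theorem extended_of_even {h : HermForm Γ (Fin 4 → MonoidAlgebra ℤ Γ)} (hh : HasGram h (Lam x))
    (heven : ∀ g : Γ, g ≠ 1 → Even (x.coeff g)) : h.Extended := by
  classical
  set m := x.coeff 1 with hm
  -- `x = m + 2 y`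
  obtain ⟨y, hy⟩ : ∃ y : MonoidAlgebra ℤ Γ, x = single 1 m + 2 * y := by
    refine ⟨∑ g ∈ x.coeff.support.erase 1, single g (x.coeff g / 2), ?_⟩
    apply MonoidAlgebra.ext
    ext l
    rw [coeff_add, Finsupp.add_apply, coeff_two_mul, coeff_sum, Finsupp.finsetSum_apply,
      coeff_single]
    by_cases hl1 : l = 1
    · rw [hl1, Finsupp.single_eq_same, Finset.sum_eq_zero, mul_zero, add_zero]
      intro b hb
      rw [coeff_single, Finsupp.single_eq_of_ne (Finset.ne_of_mem_erase hb).symm]
    · rw [Finsupp.single_eq_of_ne hl1, zero_add]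
      by_cases hl : l ∈ x.coeff.support
      · rw [Finset.sum_eq_single l]
        · rw [coeff_single, Finsupp.single_eq_same]
          obtain ⟨c, hc⟩ := heven l hl1
          omega
        · intro b _ hb
          rw [coeff_single, Finsupp.single_eq_of_ne hb.symm]
        · intro h; exact absurd (Finset.mem_erase.2 ⟨hl1, hl⟩) h
      · rw [Finsupp.notMem_support_iff.1 hl, Finset.sum_eq_zero, mul_zero]
        intro b hb
        rw [coeff_single, Finsupp.single_eq_of_ne]
        rintro rfl
        exact hl (Finset.mem_of_mem_erase hb)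
  have hbar : bar (single (1 : Γ) m) = single 1 m := by rw [bar_single, inv_one]
  refine Extended.of_isometric (isometric_of_congr hh (form_gram hbar) hy) ?_
  refine ⟨4, Pi.basisFun _ (Fin 4), !![1 + m + m * m, m + m * m, 1 + m, m;
     m + m * m, 1 + m + m * m, m, 1 + m;
     1 + m, m, 2, 0;
     m, 1 + m, 0, 2], fun i j => ?_⟩
  rw [Pi.basisFun_apply, Pi.basisFun_apply, form_gram hbar i j]
  have h1 : (1 : MonoidAlgebra ℤ Γ) = single 1 1 := MonoidAlgebra.one_def
  have h2 : (2 : MonoidAlgebra ℤ Γ) = single 1 2 := by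
    rw [← one_add_one_eq_two, h1, ← MonoidAlgebra.single_add]; rfl
  fin_cases i <;> fin_cases j <;>
    simp [Lam, h1, h2, single_mul_single, MonoidAlgebra.single_add]

end iso

section ext

variable {P : Type*} [AddCommGroup P] [Module (MonoidAlgebra ℤ Γ) P] {h : HermForm Γ P}
  {k : ℕ} (b : Module.Basis (Fin k) (MonoidAlgebra ℤ Γ) P) {Q : Matrix (Fin k) (Fin k) ℤ}
  (hQ : ∀ i j, h.val (b i) (b j) = single 1 (Q i j))

/-- vectors with one position -/
noncomputable def vec (δ : Γ) (n : Fin k → ℤ) : P := ∑ i, n i • act δ (b i)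

include hQ in
theorem vec_orth {γ δ : Γ} (hγδ : γ ≠ δ) (p q : Fin k → ℤ) : h.B (vec b γ p) (vec b δ q) = 0 := by
  unfold vec
  rw [h.B_sum_left]
  refine Finset.sum_eq_zero fun i _ => ?_
  rw [h.B_sum_right]
  refine Finset.sum_eq_zero fun j _ => ?_
  rw [h.B_zsmul_left, h.B_zsmul_right]
  have : h.B (act γ (b i)) (act δ (b j)) = 0 := by
    rw [h.B_act_act, hQ, coeff_single, Finsupp.single_eq_of_ne]
    intro h1
    exact hγδ (inv_mul_eq_one.1 h1)
  rw [this, mul_zero, mul_zero]

include hQ in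
theorem exists_vec {v : P} (hv : v ≠ 0 ∧ ∀ a c, v = a + c → h.B a c = 0 → a = 0 ∨ c = 0) :
    ∃ δ n, v = vec b δ n := by
  classical
  set c := b.repr v with hc
  have hv1 : v = ∑ i, c i • b i := (b.sum_repr v).symm
  let e : Γ → P := fun γ => vec b γ fun i => (c i).coeff γ
  set U : Finset Γ := Finset.univ.biUnion fun i => (c i).coeff.support with hU
  have hv2 : v = ∑ γ ∈ U, e γ := by
    conv_lhs => rw [hv1]
    change _ = ∑ γ ∈ U, ∑ i, (c i).coeff γ • act γ (b i)
    rw [Finset.sum_comm]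
    refine Finset.sum_congr rfl fun i _ => ?_
    exact smul_eq_sum _ _ _ (Finset.subset_biUnion_of_mem (fun i => (c i).coeff.support)
      (Finset.mem_univ i))
  obtain ⟨γ, hγU, hγ⟩ : ∃ γ ∈ U, e γ ≠ 0 := by
    by_contra hcon
    push Not at hcon
    apply hv.1
    rw [hv2]
    exact Finset.sum_eq_zero hcon
  have hsplit : v = e γ + ∑ δ ∈ U.erase γ, e δ := by
    rw [Finset.add_sum_erase U e hγU]
    exact hv2
  have h0 : h.B (e γ) (∑ δ ∈ U.erase γ, e δ) = 0 := by
    rw [h.B_sum_right]
    refine Finset.sum_eq_zero fun δ hδ => ?_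
    exact vec_orth b hQ (Finset.ne_of_mem_erase hδ).symm _ _
  rcases hv.2 _ _ hsplit h0 with h1 | h1
  · exact absurd h1 hγ
  · rw [h1, add_zero] at hsplit
    exact ⟨γ, _, hsplit⟩

theorem repr_vec (δ : Γ) (n : Fin k → ℤ) (i : Fin k) : b.repr (vec b δ n) i = single δ (n i) := by
  classical
  unfold vec act
  rw [map_sum, Finsupp.finsetSum_apply, Finset.sum_eq_single i]
  · rw [map_zsmul, map_smul, b.repr_self, Finsupp.smul_apply, Finsupp.smul_apply,
      Finsupp.single_eq_same, smul_eq_mul, mul_one]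
    apply MonoidAlgebra.ext
    ext g
    rw [coeff_smul, Finsupp.smul_apply, coeff_single, coeff_single, Finsupp.single_apply,
      Finsupp.single_apply]
    split_ifs <;> simp
  · intro j _ hj
    rw [map_zsmul, map_smul, b.repr_self, Finsupp.smul_apply, Finsupp.smul_apply,
      Finsupp.single_eq_of_ne hj.symm, smul_zero, smul_zero]
  · intro h; exact absurd (Finset.mem_univ i) h

end ext

section only

variable {x : MonoidAlgebra ℤ Γ}

/-- If the form is induced, all coefficients of `x` away from the identity are even. -/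
theorem even_of_extended {h : HermForm Γ (Fin 4 → MonoidAlgebra ℤ Γ)} (hh : HasGram h (Lam x))
    (hE : h.Extended) {g : Γ} (hg : g ≠ 1) : Even (x.coeff g) := by
  classical
  by_contra hne
  rw [Int.not_even_iff] at hne
  have hx := bar_of_gram hh
  have hp := posDef hh
  -- vectors of norm two are irreducible
  have hirr : ∀ v, h.val v v = 2 → v ≠ 0 ∧ ∀ a c, v = a + c → h.B a c = 0 → a = 0 ∨ c = 0 := by
    intro v hv
    have hB : h.B v v = 2 := by
      unfold B
      rw [hv, ← one_add_one_eq_two, coeff_add, Finsupp.add_apply, HermForm.coeff_one_one]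
      norm_num
    refine ⟨?_, fun a c hac h0 => ?_⟩
    · rintro rfl
      rw [h.B_zero_left] at hB
      norm_num at hB
    · by_contra hcon
      rw [not_or] at hcon
      have ha : 0 < h.B a a := hp a hcon.1
      have hc : 0 < h.B c c := hp c hcon.2
      rw [hac, h.B_add, h.B_add_right, h.B_add_right, h.B_symm c a, h0] at hB
      have h2 := norm_ne_one hh hg hne a
      omega
  obtain ⟨k, b, Q, hQ⟩ := hE
  let r2 : Fin 4 → MonoidAlgebra ℤ Γ := ![0, 0, 1, 0]
  let r3 : Fin 4 → MonoidAlgebra ℤ Γ := ![0, 0, 0, 1]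
  let s : Fin 4 → MonoidAlgebra ℤ Γ := ![1, -1, 0, 0]
  let t : Fin 4 → MonoidAlgebra ℤ Γ := ![2, 0, -x - 1, -x]
  have bm : bar (-1 : MonoidAlgebra ℤ Γ) = -1 := by
    have := bar_sub (0 : MonoidAlgebra ℤ Γ) 1
    rwa [bar_zero, bar_one, zero_sub] at this
  have bn : ∀ w : MonoidAlgebra ℤ Γ, bar (-w) = -bar w := by
    intro w
    have := bar_sub (0 : MonoidAlgebra ℤ Γ) w
    rwa [bar_zero, zero_sub, zero_sub] at this
  have n2 : h.val r2 r2 = 2 := by
    rw [val_Lam hh]
    simp [r2, bar_zero, bar_one]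
  have n3 : h.val r3 r3 = 2 := by
    rw [val_Lam hh]
    simp [r3, bar_zero, bar_one]
  have ns : h.val s s = 2 := by
    rw [val_Lam hh]
    simp only [s, Matrix.cons_val_zero, Matrix.cons_val_one, Matrix.cons_val, bar_zero, bar_one, bm]
    noncomm_ring
    simp
  have nt : h.val t t = 2 := by
    rw [val_Lam hh]
    simp only [t, Matrix.cons_val_zero, Matrix.cons_val_one, Matrix.cons_val, bar_zero, bar_one,
      bar_sub, bn, hx, bar_ofNat_two]
    noncomm_ring
    simp
  have p2 : h.B r2 s ≠ 0 := by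
    have : h.val r2 s = 1 := by
      rw [val_Lam hh]
      simp only [s, r2, Matrix.cons_val_zero, Matrix.cons_val_one, Matrix.cons_val, bar_zero,
        bar_one, bm]
      noncomm_ring
    unfold B
    rw [this, HermForm.coeff_one_one]
    norm_num
  have p3 : h.B r3 s ≠ 0 := by
    have : h.val r3 s = -1 := by
      rw [val_Lam hh]
      simp only [s, r3, Matrix.cons_val_zero, Matrix.cons_val_one, Matrix.cons_val, bar_zero,
        bar_one, bm]
      noncomm_ring
    unfold B
    rw [this, coeff_neg, Finsupp.neg_apply, HermForm.coeff_one_one]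
    norm_num
  have pt : h.B t s ≠ 0 := by
    have : h.val t s = 1 := by
      rw [val_Lam hh]
      simp only [s, t, Matrix.cons_val_zero, Matrix.cons_val_one, Matrix.cons_val, bar_zero,
        bar_one, bm]
      noncomm_ring
    unfold B
    rw [this, HermForm.coeff_one_one]
    norm_num
  obtain ⟨δ, ns', hs⟩ := exists_vec b hQ (hirr s ns)
  have same : ∀ v, h.val v v = 2 → h.B v s ≠ 0 → ∃ n, v = vec b δ n := by
    intro v hv hvs
    obtain ⟨γ, n, hn⟩ := exists_vec b hQ (hirr v hv)
    by_cases hγ : γ = δ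
    · rw [hγ] at hn; exact ⟨n, hn⟩
    · exfalso
      apply hvs
      rw [hn, hs]
      exact vec_orth b hQ hγ _ _
  obtain ⟨m2, h2⟩ := same r2 n2 p2
  obtain ⟨m3, h3⟩ := same r3 n3 p3
  obtain ⟨mt, ht⟩ := same t nt pt
  -- `2 e = t + r2 + x (r2 + r3)`
  let e : Fin 4 → MonoidAlgebra ℤ Γ := ![1, 0, 0, 0]
  have he : e + e = t + r2 + x • (r2 + r3) := by
    ext1 i
    fin_cases i
    · simp [e, t, r2, r3]; norm_num
    · simp [e, t, r2, r3]
    · simp [e, t, r2, r3]
    · simp [e, t, r2, r3]
  have key : ∀ i, 2 * (b.repr e i).coeff (g * δ) = x.coeff g * (m2 i + m3 i) := by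
    intro i
    have h4 := congrArg (fun v => (b.repr v i).coeff (g * δ)) he
    simp only [map_add, map_smul, Finsupp.add_apply, Finsupp.smul_apply, smul_eq_mul] at h4
    rw [ht, h2, h3, repr_vec, repr_vec, repr_vec, coeff_add, coeff_add, coeff_add,
      Finsupp.add_apply, Finsupp.add_apply, Finsupp.add_apply, ← MonoidAlgebra.single_add,
      coeff_mul_single_apply, mul_inv_cancel_right, coeff_single, coeff_single,
      Finsupp.single_eq_of_ne, Finsupp.single_eq_of_ne] at h4
    · linarith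
    · intro h5; exact hg (mul_eq_right.1 h5)
    · intro h5; exact hg (mul_eq_right.1 h5)
  have heven : ∀ i, Even (m2 i + m3 i) := by
    intro i
    by_contra hcon
    rw [Int.not_even_iff] at hcon
    have h5 := key i
    have h6 : (x.coeff g * (m2 i + m3 i)) % 2 = 1 := by
      rw [Int.mul_emod, hne, hcon]; norm_num
    omega
  choose w hw using heven
  have h7 : r2 + r3 = vec b δ w + vec b δ w := by
    rw [h2, h3]
    unfold vec
    rw [← Finset.sum_add_distrib, ← Finset.sum_add_distrib]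
    refine Finset.sum_congr rfl fun i _ => ?_
    rw [← add_smul, ← add_smul, hw i]
  have h8 := congrArg (fun v : Fin 4 → MonoidAlgebra ℤ Γ => (v 2).coeff (1 : Γ)) h7
  simp only [Pi.add_apply, coeff_add, Finsupp.add_apply] at h8
  have h9 : (r2 2).coeff (1 : Γ) = 1 := HermForm.coeff_one_one
  have h10 : (r3 2).coeff (1 : Γ) = 0 := by simp [r3]
  rw [h9, h10] at h8
  omega

end only

section metabolic

variable {x : MonoidAlgebra ℤ Γ}

/-- the lagrangian -/
noncomputable def lag (x : MonoidAlgebra ℤ Γ) : (Fin 4 → MonoidAlgebra ℤ Γ) →ₗ[MonoidAlgebra ℤ Γ]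
    (Fin 4 → MonoidAlgebra ℤ Γ) × (Fin 4 → MonoidAlgebra ℤ Γ) where
  toFun α := (![α 2 + 2 * α 3, -α 2, α 0, α 1],
    ![α 0 + α 1 + α 3 * (1 + 2 * x), α 0 - α 1 + α 2 + α 3, α 3, α 2 + α 3])
  map_add' u v := by
    ext1
    · ext1 i
      fin_cases i <;> simp <;> first | noncomm_ring | abel
    · ext1 i
      fin_cases i <;> simp <;> first | noncomm_ring | abel
  map_smul' a u := by
    ext1
    · ext1 i
      fin_cases i <;> simp <;> first | noncomm_ring | abel
    · ext1 i
      fin_cases i <;> simp <;> first | noncomm_ring | abel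

/-- the left inverse -/
noncomputable def lagInv : (Fin 4 → MonoidAlgebra ℤ Γ) × (Fin 4 → MonoidAlgebra ℤ Γ)
    →ₗ[MonoidAlgebra ℤ Γ] (Fin 4 → MonoidAlgebra ℤ Γ) where
  toFun z := ![z.1 2, z.1 3, -z.1 1, z.2 2]
  map_add' u v := by
    ext1 i
    fin_cases i <;> simp <;> first | noncomm_ring | abel
  map_smul' a u := by
    ext1 i
    fin_cases i <;> simp

theorem metabolic {h : HermForm Γ (Fin 4 → MonoidAlgebra ℤ Γ)} (hh : HasGram h (Lam x)) :
    SumNegOneMetabolic h := by
  have hx := bar_of_gram hh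
  have bn : ∀ w : MonoidAlgebra ℤ Γ, bar (-w) = -bar w := by
    intro w
    have := bar_sub (0 : MonoidAlgebra ℤ Γ) w
    rwa [bar_zero, zero_sub, zero_sub] at this
  refine ⟨lag x, lagInv, fun α => ?_, fun z => ⟨?_, fun hz => ?_⟩⟩
  · ext1 i
    fin_cases i <;> simp [lag, lagInv]
  · rintro ⟨α, rfl⟩ β
    rw [val_Lam hh, Fin.sum_univ_four]
    simp only [lag, LinearMap.coe_mk, AddHom.coe_mk, Matrix.cons_val_zero, Matrix.cons_val_one,
      Matrix.cons_val, bar_add, bar_sub, bar_mul, bn, hx, bar_one, bar_ofNat_two]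
    generalize bar (β 0) = a
    generalize bar (β 1) = b
    generalize bar (β 2) = c
    generalize bar (β 3) = d
    noncomm_ring
  · obtain ⟨u, p⟩ := z
    have e : ∀ k : Fin 4, h.val u (lag x (Pi.single k 1)).1 -
      ∑ i, p i * bar ((lag x (Pi.single k 1)).2 i) = 0 := fun k => hz _
    have e0 := e 0
    have e1 := e 1
    have e2 := e 2
    have e3 := e 3
    rw [val_Lam hh, Fin.sum_univ_four] at e0 e1 e2 e3
    simp [lag, bar_add, bar_sub, bar_mul, bn, hx, bar_one, bar_zero, bar_ofNat_two] at e0 e1 e2 e3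
    have f3 := sub_eq_zero.1 e3
    have g0 := (sub_eq_zero.1 e0).symm
    have g1 := (sub_eq_zero.1 e1).symm
    have g2 : p 1 + p 3 = u 0 - u 1 + u 2 - u 3 := by
      rw [← sub_eq_zero.1 e2]; noncomm_ring
    have h0 : 2 * p 0 = (u 0 * (1 + x) + u 1 * x + u 2 * 2) +
        (u 0 * x + u 1 * (1 + x) + u 3 * 2) := by
      rw [← g0, ← g1]; noncomm_ring
    have h1 : 2 * p 1 = (u 0 * (1 + x) + u 1 * x + u 2 * 2) -
        (u 0 * x + u 1 * (1 + x) + u 3 * 2) := by
      rw [← g0, ← g1]; noncomm_ring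
    have h2 : 2 * p 2 = u 0 + u 1 := by
      have e4 : 2 * p 2 = 2 * (p 0 * (1 + x * 2) + p 1 + p 2 + p 3) - (2 * p 0) * (1 + x * 2)
          - 2 * (p 1 + p 3) := by noncomm_ring
      rw [e4, ← f3, h0, g2]
      noncomm_ring
    have k0 : p 0 = u 2 + u 3 + p 2 * (1 + 2 * x) := two_cancel (by
      have e4 : 2 * (u 2 + u 3 + p 2 * (1 + 2 * x)) =
          2 * u 2 + 2 * u 3 + (2 * p 2) * (1 + 2 * x) := by noncomm_ring
      rw [e4, h2, h0]
      noncomm_ring)
    have k1 : p 1 = u 2 - u 3 + -u 1 + p 2 := two_cancel (by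
      have e4 : 2 * (u 2 - u 3 + -u 1 + p 2) = 2 * u 2 - 2 * u 3 - 2 * u 1 + 2 * p 2 := by
        noncomm_ring
      rw [e4, h2, h1]
      noncomm_ring)
    have hu0 : u 0 = -u 1 + 2 * p 2 := by rw [h2]; abel
    have k3 : p 3 = -u 1 + p 2 := by
      have e4 : p 3 = (p 1 + p 3) - p 1 := by abel
      rw [e4, g2, k1, hu0]
      noncomm_ring
    refine ⟨![u 2, u 3, -u 1, p 2], ?_⟩
    ext1
    · ext1 i
      fin_cases i
      · simpa [lag] using hu0.symm
      · simp [lag]
      · simp [lag]
      · simp [lag]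
    · ext1 i
      fin_cases i
      · simpa [lag] using k0.symm
      · simpa [lag] using k1.symm
      · simp [lag]
      · simpa [lag] using k3.symm

end metabolic

end Pool.Agent.V8H85.Fam
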