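import Pool.Agent.V8H85.RF.Defs

set_option autoImplicit false

/-! A family of forms of rank four over the integral group ring: definitions. -/

namespace Pool.Agent.V8H85.Fam

open MonoidAlgebra Pool.Agent.V8H85.RF

variable {Γ : Type*} [Group Γ]

/-- The matrix `Λ(x)`. -/
noncomputable def Lam (x : MonoidAlgebra ℤ Γ) : Matrix (Fin 4) (Fin 4) (MonoidAlgebra ℤ Γ) :=
  !![1 + x + x * x, x + x * x, 1 + x, x;
     x + x * x, 1 + x + x * x, x, 1 + x;
     1 + x, x, 2, 0;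
     x, 1 + x, 0, 2]

/-- The hermitian form `h` on the free module of rank four has the Gram matrix `Λ`. -/
def HasGram (h : HermForm Γ (Fin 4 → MonoidAlgebra ℤ Γ))
    (Λ : Matrix (Fin 4) (Fin 4) (MonoidAlgebra ℤ Γ)) : Prop :=
  ∀ i j, h.val (Pi.single i 1) (Pi.single j 1) = Λ i j

/-- Two hermitian forms are isometric. -/
def Isometric {P P' : Type*} [AddCommGroup P] [Module (MonoidAlgebra ℤ Γ) P] [AddCommGroup P']
    [Module (MonoidAlgebra ℤ Γ) P'] (h : HermForm Γ P) (h' : HermForm Γ P') : Prop :=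
  ∃ e : P ≃ₗ[MonoidAlgebra ℤ Γ] P', ∀ u v, h'.val (e u) (e v) = h.val u v

/-- The orthogonal sum of `h` (on a free module of rank four) and the form `-1` of rank four is
metabolic: it has a free lagrangian, i.e. a free direct summand which is its own orthogonal
complement. -/
def SumNegOneMetabolic (h : HermForm Γ (Fin 4 → MonoidAlgebra ℤ Γ)) : Prop :=
  ∃ (ι : (Fin 4 → MonoidAlgebra ℤ Γ) →ₗ[MonoidAlgebra ℤ Γ]
        (Fin 4 → MonoidAlgebra ℤ Γ) × (Fin 4 → MonoidAlgebra ℤ Γ))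
    (ρ : (Fin 4 → MonoidAlgebra ℤ Γ) × (Fin 4 → MonoidAlgebra ℤ Γ) →ₗ[MonoidAlgebra ℤ Γ]
        (Fin 4 → MonoidAlgebra ℤ Γ)),
    (∀ α, ρ (ι α) = α) ∧
    ∀ z, (∃ α, ι α = z) ↔ ∀ β, h.val z.1 (ι β).1 - ∑ i, z.2 i * bar ((ι β).2 i) = 0

end Pool.Agent.V8H85.Fam
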