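import Pool.Agent.V8H85.Fam.Defs
import Pool.Agent.V8H85.RF.Example

set_option autoImplicit false

/-! A family of forms of rank four over the integral group ring. -/

namespace Pool.Agent.V8H85.Fam

open MonoidAlgebra Pool.Agent.V8H85.RF Pool.Agent.V8H85.RF.HermForm

variable {Γ : Type*} [Group Γ]

theorem Lam_herm {x : MonoidAlgebra ℤ Γ} (hx : bar x = x) : ∀ i j, Lam x j i = bar (Lam x i j) := by
  intro i j
  fin_cases i <;> fin_cases j <;>
    simp [Lam, bar_add, bar_mul, bar_one, hx, bar_zero, bar_ofNat_two]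

/-- the form -/
noncomputable def form {x : MonoidAlgebra ℤ Γ} (hx : bar x = x) :
    HermForm Γ (Fin 4 → MonoidAlgebra ℤ Γ) := ofMatrix (Lam x) (Lam_herm hx)

theorem form_gram {x : MonoidAlgebra ℤ Γ} (hx : bar x = x) : HasGram (form hx) (Lam x) := by
  intro k l
  change ∑ i, ∑ j, (Pi.single k 1 : Fin 4 → MonoidAlgebra ℤ Γ) i * Lam x i j *
    bar ((Pi.single l 1 : Fin 4 → MonoidAlgebra ℤ Γ) j) = _
  rw [Finset.sum_eq_single k, Finset.sum_eq_single l]
  · rw [Pi.single_eq_same, Pi.single_eq_same, bar_one, one_mul, mul_one]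
  · intro b _ hb
    rw [Pi.single_eq_of_ne hb, bar_zero, mul_zero]
  · intro h; exact absurd (Finset.mem_univ l) h
  · intro a _ ha
    refine Finset.sum_eq_zero fun b _ => ?_
    rw [Pi.single_eq_of_ne ha, zero_mul, zero_mul]
  · intro h; exact absurd (Finset.mem_univ k) h

/-- the value of a form in terms of the Gram matrix -/
theorem val_eq {Λ : Matrix (Fin 4) (Fin 4) (MonoidAlgebra ℤ Γ)}
    {h : HermForm Γ (Fin 4 → MonoidAlgebra ℤ Γ)} (hh : HasGram h Λ)
    (u v : Fin 4 → MonoidAlgebra ℤ Γ) : h.val u v = ∑ i, ∑ j, u i * Λ i j * bar (v j) := by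
  have hsum : ∀ w : Fin 4 → MonoidAlgebra ℤ Γ,
      w = ∑ i, w i • (Pi.single i (1 : MonoidAlgebra ℤ Γ) : Fin 4 → MonoidAlgebra ℤ Γ) := by
    intro w
    conv_lhs => rw [← Finset.univ_sum_single w]
    refine Finset.sum_congr rfl fun i _ => ?_
    ext1 j
    by_cases hij : j = i
    · subst hij; simp
    · simp [hij]
  have hl : ∀ (f : Fin 4 → Fin 4 → MonoidAlgebra ℤ Γ) (w : Fin 4 → MonoidAlgebra ℤ Γ),
      h.val (∑ i, f i) w = ∑ i, h.val (f i) w := by
    intro f w
    let φ : (Fin 4 → MonoidAlgebra ℤ Γ) →+ MonoidAlgebra ℤ Γ :=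
      AddMonoidHom.mk' (fun u => h.val u w) (fun a b => h.add_left a b w)
    exact map_sum φ f _
  have hr : ∀ (f : Fin 4 → Fin 4 → MonoidAlgebra ℤ Γ) (w : Fin 4 → MonoidAlgebra ℤ Γ),
      h.val w (∑ i, f i) = ∑ i, h.val w (f i) := by
    intro f w
    let φ : (Fin 4 → MonoidAlgebra ℤ Γ) →+ MonoidAlgebra ℤ Γ :=
      AddMonoidHom.mk' (fun u => h.val w u) (fun a b => h.add_right w a b)
    exact map_sum φ f _
  conv_lhs => rw [hsum u, hl]
  refine Finset.sum_congr rfl fun i _ => ?_
  conv_lhs => rw [hsum v, hr]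
  refine Finset.sum_congr rfl fun j _ => ?_
  rw [h.smul_left, h.smul_right, hh i j, mul_assoc]

theorem val_Lam {x : MonoidAlgebra ℤ Γ} {h : HermForm Γ (Fin 4 → MonoidAlgebra ℤ Γ)}
    (hh : HasGram h (Lam x)) (u v : Fin 4 → MonoidAlgebra ℤ Γ) : h.val u v =
    u 0 * (1 + x + x * x) * bar (v 0) + u 0 * (x + x * x) * bar (v 1) +
      u 0 * (1 + x) * bar (v 2) + u 0 * x * bar (v 3) +
    (u 1 * (x + x * x) * bar (v 0) + u 1 * (1 + x + x * x) * bar (v 1) +
      u 1 * x * bar (v 2) + u 1 * (1 + x) * bar (v 3)) +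
    (u 2 * (1 + x) * bar (v 0) + u 2 * x * bar (v 1) + u 2 * 2 * bar (v 2)) +
    (u 3 * x * bar (v 0) + u 3 * (1 + x) * bar (v 1) + u 3 * 2 * bar (v 3)) := by
  rw [val_eq hh]
  simp only [Fin.sum_univ_four]
  simp [Lam]

/-- A form with Gram matrix `Λ(x)` determines `x = bar x`. -/
theorem bar_of_gram {x : MonoidAlgebra ℤ Γ} {h : HermForm Γ (Fin 4 → MonoidAlgebra ℤ Γ)}
    (hh : HasGram h (Lam x)) : bar x = x := by
  have h1 := hh 0 3
  have h2 := hh 3 0
  rw [h.symm, h1] at h2
  simpa [Lam] using h2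

section coords

variable (x : MonoidAlgebra ℤ Γ)

/-- the coordinates of a vector -/
noncomputable def z0 (u : Fin 4 → MonoidAlgebra ℤ Γ) : MonoidAlgebra ℤ Γ :=
  (u 0 + u 1) * (1 + 2 * x) + 2 * u 2 + 2 * u 3

variable {x}

theorem four_val {h : HermForm Γ (Fin 4 → MonoidAlgebra ℤ Γ)} (hh : HasGram h (Lam x))
    (u v : Fin 4 → MonoidAlgebra ℤ Γ) : 4 * h.val u v =
    z0 x u * bar (z0 x v) + y1 u * bar (y1 v) + y2 u * bar (y2 v) + y3 u * bar (y3 v) := by
  have hx := bar_of_gram hh
  rw [val_Lam hh]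
  unfold z0 y1 y2 y3
  simp only [bar_add, bar_sub, bar_mul, bar_one, hx, bar_ofNat_two]
  generalize bar (v 0) = a
  generalize bar (v 1) = b
  generalize bar (v 2) = c
  generalize bar (v 3) = d
  noncomm_ring

/-- the sum of the squares of the coordinates at `g` -/
noncomputable def qq (x : MonoidAlgebra ℤ Γ) (u : Fin 4 → MonoidAlgebra ℤ Γ) (g : Γ) : ℤ :=
  ((z0 x u).coeff g) ^ 2 + ((y1 u).coeff g) ^ 2 + ((y2 u).coeff g) ^ 2 + ((y3 u).coeff g) ^ 2

open Classical in
/-- all positions -/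
noncomputable def UU (x : MonoidAlgebra ℤ Γ) (u : Fin 4 → MonoidAlgebra ℤ Γ) : Finset Γ :=
  (z0 x u).coeff.support ∪ (y1 u).coeff.support ∪ (y2 u).coeff.support ∪ (y3 u).coeff.support

theorem norm_eq {h : HermForm Γ (Fin 4 → MonoidAlgebra ℤ Γ)} (hh : HasGram h (Lam x))
    (u : Fin 4 → MonoidAlgebra ℤ Γ) :
    4 * h.B u u = ∑ g ∈ UU x u, qq x u g := by
  classical
  have h1 : 4 * h.B u u = (4 * h.val u u).coeff 1 := by
    have h2 : (4 * h.val u u) = (4 : ℤ) • h.val u u := by
      rw [zsmul_eq_mul]; norm_num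
    rw [h2, coeff_smul, Finsupp.smul_apply, smul_eq_mul]
    rfl
  rw [h1, four_val hh, coeff_add, coeff_add, coeff_add, Finsupp.add_apply, Finsupp.add_apply,
    Finsupp.add_apply, coeff_mul_bar _ (UU x u), coeff_mul_bar _ (UU x u),
    coeff_mul_bar _ (UU x u), coeff_mul_bar _ (UU x u), ← Finset.sum_add_distrib,
    ← Finset.sum_add_distrib, ← Finset.sum_add_distrib]
  · rfl
  · exact Finset.subset_union_right
  · exact Finset.subset_union_right.trans Finset.subset_union_left
  · exact (Finset.subset_union_right.trans Finset.subset_union_left).trans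
      Finset.subset_union_left
  · exact (Finset.subset_union_left.trans Finset.subset_union_left).trans
      Finset.subset_union_left

theorem qq_nonneg (u : Fin 4 → MonoidAlgebra ℤ Γ) (g : Γ) : 0 ≤ qq x u g := by
  unfold qq; positivity

theorem qq_eq_zero {u : Fin 4 → MonoidAlgebra ℤ Γ} {g : Γ} (hg : g ∉ UU x u) :
    qq x u g = 0 := by
  classical
  unfold UU at hg
  simp only [Finset.mem_union, not_or, Finsupp.notMem_support_iff] at hg
  unfold qq
  rw [hg.1.1.1, hg.1.1.2, hg.1.2, hg.2]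
  norm_num

theorem z_eq_zero {u : Fin 4 → MonoidAlgebra ℤ Γ} {g : Γ} (h : qq x u g = 0) :
    (z0 x u).coeff g = 0 ∧ (y1 u).coeff g = 0 ∧ (y2 u).coeff g = 0 ∧ (y3 u).coeff g = 0 := by
  unfold qq at h
  refine ⟨?_, ?_, ?_, ?_⟩ <;> nlinarith [sq_nonneg ((z0 x u).coeff g), sq_nonneg ((y1 u).coeff g),
    sq_nonneg ((y2 u).coeff g), sq_nonneg ((y3 u).coeff g)]

theorem z0_coeff (u : Fin 4 → MonoidAlgebra ℤ Γ) (g : Γ) :
    (z0 x u).coeff g = (y2 u).coeff g + 2 * (y2 u * x).coeff g +
      2 * (u 2).coeff g + 2 * (u 3).coeff g := by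
  have h1 : z0 x u = y2 u + 2 * (y2 u * x) + 2 * u 2 + 2 * u 3 := by
    unfold z0 y2
    noncomm_ring
  rw [h1, coeff_add, coeff_add, coeff_add, Finsupp.add_apply, Finsupp.add_apply,
    Finsupp.add_apply, coeff_two_mul, coeff_two_mul, coeff_two_mul]

/-- there are no vectors of norm one if some coefficient of `x` is odd -/
theorem norm_ne_one {h : HermForm Γ (Fin 4 → MonoidAlgebra ℤ Γ)} (hh : HasGram h (Lam x))
    {k : Γ} (hk : k ≠ 1) (hodd : x.coeff k % 2 = 1) (u : Fin 4 → MonoidAlgebra ℤ Γ) :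
    h.B u u ≠ 1 := by
  classical
  intro hN
  have hsum := norm_eq hh u
  rw [hN, mul_one] at hsum
  have hle : ∀ g, qq x u g ≤ 4 := by
    intro g
    by_cases hg : g ∈ UU x u
    · rw [hsum]
      exact Finset.single_le_sum (f := qq x u) (fun k _ => qq_nonneg u k) hg
    · rw [qq_eq_zero hg]; norm_num
  have hother : ∀ g k, qq x u g = 4 → k ≠ g → qq x u k = 0 := by
    intro g k hg hk
    by_contra hne
    have hgU : g ∈ UU x u := by
      by_contra h; rw [qq_eq_zero h] at hg; norm_num at hg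
    have hkU : k ∈ UU x u := by
      by_contra h; exact hne (qq_eq_zero h)
    have h1 : ∑ a ∈ ({g, k} : Finset Γ), qq x u a ≤ ∑ a ∈ UU x u, qq x u a := by
      refine Finset.sum_le_sum_of_subset_of_nonneg ?_ fun a _ _ => qq_nonneg u a
      intro a ha
      rw [Finset.mem_insert, Finset.mem_singleton] at ha
      rcases ha with rfl | rfl
      · exact hgU
      · exact hkU
    rw [Finset.sum_pair hk.symm, hg, ← hsum] at h1
    have h2 := qq_nonneg (x := x) u k
    omega
  by_cases hodd2 : ∃ g, (y2 u).coeff g % 2 = 1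
  · -- a position with odd coordinates
    obtain ⟨g, hg⟩ := hodd2
    have h0 := z0_coeff (x := x) u g
    have h1 := y1_coeff u g
    have h3 := y3_coeff u g
    have hsq : ∀ a : ℤ, a % 2 = 1 → 1 ≤ a ^ 2 := by
      intro a ha
      have h5 : a ≠ 0 := by rintro rfl; norm_num at ha
      have h6 := sq_nonneg a
      rcases h6.eq_or_lt with h | h
      · exact absurd (pow_eq_zero_iff two_ne_zero |>.1 h.symm) h5
      · omega
    have hq : qq x u g = 4 := by
      refine le_antisymm (hle g) ?_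
      unfold qq
      have a0 := hsq ((z0 x u).coeff g) (by omega)
      have a1 := hsq ((y1 u).coeff g) (by omega)
      have a2 := hsq ((y2 u).coeff g) hg
      have a3 := hsq ((y3 u).coeff g) (by omega)
      linarith
    have hgk : g * k ≠ g := fun h => hk (mul_eq_left.1 h)
    obtain ⟨b0, b1, b2, b3⟩ := z_eq_zero (hother g (g * k) hq hgk)
    -- the element `y2 u` has one coefficient
    have hs : y2 u = single g ((y2 u).coeff g) := by
      apply MonoidAlgebra.ext
      ext l
      rw [coeff_single, Finsupp.single_apply]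
      by_cases hl : g = l
      · rw [if_pos hl, hl]
      · rw [if_neg hl]
        exact (z_eq_zero (hother g l hq (fun h => hl h.symm))).2.2.1
    have hmul : (y2 u * x).coeff (g * k) = (y2 u).coeff g * x.coeff k := by
      rw [hs, coeff_single_mul_apply, coeff_single, Finsupp.single_eq_same, inv_mul_cancel_left]
    have k0 := z0_coeff (x := x) u (g * k)
    have k1 := y1_coeff u (g * k)
    have k3 := y3_coeff u (g * k)
    have hpo : ((y2 u).coeff g * x.coeff k) % 2 = 1 := by
      rw [Int.mul_emod, hg, hodd]; norm_num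
    rw [hmul] at k0
    omega
  · -- all coordinates are even
    push Not at hodd2
    have heven : ∀ g, (y2 u).coeff g % 2 = 0 := fun g => by
      have := hodd2 g; omega
    obtain ⟨s', hs'⟩ : ∃ s' : MonoidAlgebra ℤ Γ, y2 u = 2 * s' := by
      refine ⟨∑ g ∈ (y2 u).coeff.support, single g ((y2 u).coeff g / 2), ?_⟩
      apply MonoidAlgebra.ext
      ext l
      rw [coeff_two_mul, coeff_sum, Finsupp.finsetSum_apply]
      by_cases hl : l ∈ (y2 u).coeff.support
      · rw [Finset.sum_eq_single l]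
        · rw [coeff_single, Finsupp.single_eq_same]
          have := heven l
          omega
        · intro b _ hb
          rw [coeff_single, Finsupp.single_eq_of_ne hb.symm]
        · intro h; exact absurd hl h
      · rw [Finsupp.notMem_support_iff.1 hl, Finset.sum_eq_zero, mul_zero]
        intro b hb
        rw [coeff_single, Finsupp.single_eq_of_ne]
        rintro rfl
        exact hl hb
    obtain ⟨g, hg⟩ : ∃ g, qq x u g ≠ 0 := by
      by_contra hcon
      push Not at hcon
      rw [Finset.sum_eq_zero fun g _ => hcon g] at hsum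
      norm_num at hsum
    have e0 := z0_coeff (x := x) u g
    have e1 := y1_coeff u g
    have e2 := heven g
    have e3 := y3_coeff u g
    have e4 : (y2 u * x).coeff g = 2 * (s' * x).coeff g := by
      rw [hs', mul_assoc, coeff_two_mul]
    rw [e4] at e0
    obtain ⟨p0, hp0⟩ : ∃ p, (z0 x u).coeff g = 2 * p := ⟨(z0 x u).coeff g / 2, by omega⟩
    obtain ⟨p1, hp1⟩ : ∃ p, (y1 u).coeff g = 2 * p := ⟨(y1 u).coeff g / 2, by omega⟩
    obtain ⟨p2, hp2⟩ : ∃ p, (y2 u).coeff g = 2 * p := ⟨(y2 u).coeff g / 2, by omega⟩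
    obtain ⟨p3, hp3⟩ : ∃ p, (y3 u).coeff g = 2 * p := ⟨(y3 u).coeff g / 2, by omega⟩
    have hq : p0 ^ 2 + p1 ^ 2 + p2 ^ 2 + p3 ^ 2 = 1 := by
      have h1 := hle g
      have h2 := qq_nonneg (x := x) u g
      unfold qq at h1 h2 hg
      rw [hp0, hp1, hp2, hp3] at h1 h2 hg
      have h3 : (2 * p0) ^ 2 + (2 * p1) ^ 2 + (2 * p2) ^ 2 + (2 * p3) ^ 2 =
        4 * (p0 ^ 2 + p1 ^ 2 + p2 ^ 2 + p3 ^ 2) := by ring
      rw [h3] at h1 h2 hg
      omega
    -- the parity of the sum
    have hpar : (p0 + p1 + p2 + p3) % 2 = 0 := by omega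
    have hsq : ∀ a : ℤ, a ^ 2 % 2 = a % 2 := by
      intro a
      rcases Int.emod_two_eq_zero_or_one a with h | h
      · rw [sq, Int.mul_emod, h]; norm_num
      · rw [sq, Int.mul_emod, h]; norm_num
    have h0 := hsq p0
    have h1 := hsq p1
    have h2 := hsq p2
    have h3 := hsq p3
    omega

theorem posDef {h : HermForm Γ (Fin 4 → MonoidAlgebra ℤ Γ)} (hh : HasGram h (Lam x)) :
    h.PosDef := by
  classical
  intro u hu
  have h1 := norm_eq hh u
  have h2 : 0 ≤ ∑ g ∈ UU x u, qq x u g := Finset.sum_nonneg fun g _ => qq_nonneg u g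
  have h3 : h.B u u ≠ 0 := by
    intro h0
    rw [h0, mul_zero] at h1
    have h4 : ∀ g, qq x u g = 0 := by
      intro g
      by_cases hg : g ∈ UU x u
      · exact (Finset.sum_eq_zero_iff_of_nonneg fun k _ => qq_nonneg u k).1 h1.symm g hg
      · exact qq_eq_zero hg
    apply hu
    have hy2 : ∀ g, (y2 u).coeff g = 0 := fun g => (z_eq_zero (h4 g)).2.2.1
    have hy2' : y2 u = 0 := MonoidAlgebra.ext (Finsupp.ext fun g => hy2 g)
    have h1' : ∀ g, (u 1).coeff g = 0 := by
      intro g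
      have e3 := y3_coeff u g
      have e2 := hy2 g
      have := (z_eq_zero (h4 g)).2.2.2
      omega
    have h0' : ∀ g, (u 0).coeff g = 0 := by
      intro g
      have e2 := hy2 g
      unfold y2 at e2
      rw [coeff_add, Finsupp.add_apply, h1' g, add_zero] at e2
      exact e2
    have h2' : ∀ g, (u 2).coeff g = 0 ∧ (u 3).coeff g = 0 := by
      intro g
      obtain ⟨a0, a1, a2, a3⟩ := z_eq_zero (h4 g)
      have e0 := z0_coeff (x := x) u g
      have e1 := y1_coeff u g
      rw [hy2', zero_mul] at e0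
      rw [hy2, h1'] at e1
      simp only [coeff_zero, Finsupp.zero_apply] at e0
      omega
    ext i g
    fin_cases i
    · exact h0' g
    · exact h1' g
    · exact (h2' g).1
    · exact (h2' g).2
  have h4 : (0 : ℤ) < h.B u u := by omega
  exact h4

/-- the inverse of the Gram matrix -/
noncomputable def Mu (x : MonoidAlgebra ℤ Γ) : Matrix (Fin 4) (Fin 4) (MonoidAlgebra ℤ Γ) :=
  !![2, 0, -(1 + x), -x;
     0, 2, -x, -(1 + x);
     -(1 + x), -x, 1 + x + x * x, x + x * x;
     -x, -(1 + x), x + x * x, 1 + x + x * x]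

theorem Lam_mul_Mu (x : MonoidAlgebra ℤ Γ) : Lam x * Mu x = 1 := by
  ext1 i j
  fin_cases i <;> fin_cases j <;>
    simp [Lam, Mu, Matrix.mul_apply, Fin.sum_univ_four] <;> noncomm_ring

theorem nonsingular {h : HermForm Γ (Fin 4 → MonoidAlgebra ℤ Γ)} (hh : HasGram h (Lam x)) :
    h.Nonsingular := by
  classical
  intro f
  -- the vector `y` with `bar y = Mu * f`
  let y : Fin 4 → MonoidAlgebra ℤ Γ := fun j => bar (∑ k, Mu x j k * f (Pi.single k 1))
  have hy : ∀ v, f v = h.val v y := by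
    intro v
    have h1 : f v = ∑ i, v i * f (Pi.single i 1) := by
      conv_lhs => rw [← Finset.univ_sum_single v, map_sum]
      refine Finset.sum_congr rfl fun i _ => ?_
      rw [← smul_eq_mul, ← map_smul]
      congr 1
      ext1 j
      by_cases hij : j = i
      · subst hij; simp
      · simp [hij]
    have h2 : ∀ i, ∑ j, Lam x i j * (∑ k, Mu x j k * f (Pi.single k 1)) = f (Pi.single i 1) := by
      intro i
      simp only [Finset.mul_sum]
      rw [Finset.sum_comm]
      have h3 : ∀ k, ∑ j, Lam x i j * (Mu x j k * f (Pi.single k 1)) =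
          (1 : Matrix (Fin 4) (Fin 4) (MonoidAlgebra ℤ Γ)) i k * f (Pi.single k 1) := by
        intro k
        rw [← Lam_mul_Mu x, Matrix.mul_apply, Finset.sum_mul]
        exact Finset.sum_congr rfl fun j _ => (mul_assoc _ _ _).symm
      rw [Finset.sum_congr rfl fun k _ => h3 k]
      simp [Matrix.one_apply]
    rw [val_eq hh, h1]
    refine Finset.sum_congr rfl fun i _ => ?_
    rw [← h2 i, Finset.mul_sum]
    refine Finset.sum_congr rfl fun j _ => ?_
    change _ = v i * Lam x i j * bar (bar _)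
    rw [bar_bar, mul_assoc]
  refine ⟨y, hy, fun z hz => ?_⟩
  by_contra hne
  have h1 : h.val (z - y) (z - y) = 0 := by
    have h2 : h.val (z - y) z = h.val (z - y) y := by
      rw [← hz, ← hy]
    have h3 : h.val (z - y) (z - y) + h.val (z - y) y = h.val (z - y) z := by
      rw [← h.add_right, sub_add_cancel]
    rw [h2] at h3
    exact add_eq_right.1 h3
  have h2 := posDef hh (z - y) (sub_ne_zero.2 hne)
  rw [h1] at h2
  exact lt_irrefl _ h2

end coords

end Pool.Agent.V8H85.Fam
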